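import Pool.Agent.L5helper92.CR.Main

/-!
# The order of the Vassiliev invariants needed for knots with few crossings

Starting library `Pool.Agent.H835R2.Knot.Defs`: `Word` (oriented sliced diagrams: lists of maxima
`birth i b`, minima `death i` and crossings `pos i`, `neg i`), `IsKnot`, `Isotopic`, `crossings`,
`IsInvariant v` (`v` is an invariant of oriented knots), `DegreeLE m v` (`v` is a Vassiliev invariant of
order at most `m`; the values are in any abelian group).  `Pool.Agent.Y466.FT.Defs`: `Braid` (braid
words), `draw`, `inv`.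

New definitions (`Pool.Agent.L5helper92.CR.Defs`):

* `aw n`: the braid words `a_0 = σ₁²`, `a_1 = σ₂²` and words `a_{n+2}` with `2 ^ (n + 3)` letters which
  represent the commutator `[a_{n+1}, a_n⁻¹]` (by the recursion `a_{n+2} = a_{n+1} e_n⁻¹`,
  `e_{n+1} = e_n⁻¹ a_{n+1}`, `e_0 = a_0⁻¹ a_1 a_0`; `st n` is the triple of the words `a_n`, `a_{n+1}`,
  `e_n`, and `s1`, `s2` are `a_0`, `a_1`);
* `bd n`: the conjugate of `a_n` by the word `yw n`, which is `σ₁` if `n ≡ 2` modulo 3 and `σ₁⁻²`
  otherwise;
* `insB b β w`: the diagram obtained from the diagram `birth 0 b :: w` by replacing the first maximum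
  by a zigzag (two maxima and one minimum) and putting the braid word `β` on the first three strands.

Proof.  Let `I` be the ideal of the double points.  The commutator of elements of `1 + I ^ p` and
`1 + I ^ q` is in `1 + I ^ (p + q)`, so `a_n` is in `1 + I ^ fib (n + 1)`.  The action of `a_n` on the
Fox 5-colourings, an element of `SL(2, 5)`, is periodic in `n ≥ 2` with period three and never `± 1`;
the insertion of `bd n` multiplies the number of the 5-colourings by five.
-/

set_option autoImplicit false

namespace Pool.Agent.Results.MP_31fd3b_gt.CommutatorKnots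

open Pool.Agent.H835R2.Knot Pool.Agent.Y466.FT Pool.Agent.L5helper92.CR

/-- (1) Let `K = birth 0 b :: w` be a knot diagram (every knot diagram has this form) and `n ≥ 1`.  Then
`insB b (bd n) w` is a diagram of a knot which is not isotopic to `K`, with at most `2 ^ (n + 1) + 4` more
crossings than `K`, on which all Vassiliev invariants of order less than the Fibonacci number
`fib (n + 1)`, with values in any abelian group, have the same value as on `K`.

(2) In particular (`K` the circle) for every `n ≥ 1` there is a nontrivial knot with a diagram with two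
maxima, two minima and at most `2 ^ (n + 1) + 4` crossings, given by a braid word `β` on three strands, on
which all Vassiliev invariants of order less than `fib (n + 1)` have the same value as on the circle.

(3) For every knot diagram `K` and every `m ≥ 1` there are pairwise non-isotopic knots
`D 0 = K`, `D 1`, `D 2`, …, on which all Vassiliev invariants of order at most `m` have the same value as
on `K`, and `D r` has at most `12 r m ^ c` more crossings than `K`, where
`c = log 2 / log ((1 + √5) / 2) = 1.4404…`. -/
theorem result :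
    (∀ (b : Bool) (w : Word) (n : ℕ), 1 ≤ n → IsKnot (Piece.birth 0 b :: w) →
      IsKnot (insB b (bd n) w) ∧ ¬ Isotopic (Piece.birth 0 b :: w) (insB b (bd n) w) ∧
      crossings (insB b (bd n) w) ≤ crossings (Piece.birth 0 b :: w) + (2 ^ (n + 1) + 4) ∧
      ∀ (A : Type) [AddCommGroup A] (m : ℕ) (v : Word → A), IsInvariant v → DegreeLE m v →
        m < Nat.fib (n + 1) → v (insB b (bd n) w) = v (Piece.birth 0 b :: w)) ∧
    (∀ n : ℕ, 1 ≤ n → ∃ β : Braid, (∀ l ∈ β, l.2 < 2) ∧ β.length ≤ 2 ^ (n + 1) + 4 ∧
      IsKnot (insB true β [Piece.death 0]) ∧ ¬ Isotopic circle (insB true β [Piece.death 0]) ∧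
      ∀ (A : Type) [AddCommGroup A] (m : ℕ) (v : Word → A), IsInvariant v → DegreeLE m v →
        m < Nat.fib (n + 1) → v (insB true β [Piece.death 0]) = v circle) ∧
    (∀ K : Word, IsKnot K → ∀ m : ℕ, 1 ≤ m → ∃ D : ℕ → Word, D 0 = K ∧ (∀ r, IsKnot (D r)) ∧
      (∀ r s, r ≠ s → ¬ Isotopic (D r) (D s)) ∧
      (∀ r, (crossings (D r) : ℝ) ≤
        crossings K + r * (12 * (m : ℝ) ^ (Real.log 2 / Real.log ((1 + √5) / 2)))) ∧
      ∀ (A : Type) [AddCommGroup A] (v : Word → A), IsInvariant v → DegreeLE m v →
        ∀ r, v (D r) = v K) := by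
  refine ⟨fun b w n hn h => ⟨knot_bd b w n h, ?_, ?_, fun A _ m v hv hd hm =>
    vas_bd b w n h hv hd hm⟩, fun n hn => ⟨bd n, bd_lt n, bd_length n, ?_, ?_, ?_⟩, ?_⟩
  · exact not_isotopic b (bd n) (bd_lt n) (good_bd n hn) w
  · rw [crossings_insB]
    have := bd_length n
    omega
  · exact knot_bd true [Piece.death 0] n (by decide)
  · exact not_isotopic true (bd n) (bd_lt n) (good_bd n hn) [Piece.death 0]
  · intro A _ m v hv hd hm
    exact vas_bd true [Piece.death 0] n (by decide) hv hd hm
  · intro K hK m hm
    obtain ⟨b, w, rfl⟩ := exists_form hK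
    obtain ⟨n, hn, hmn, hc⟩ := exists_n m hm
    refine ⟨fun r => Piece.birth 0 b :: it b n w r, rfl, it_knot b n w hK,
      fun r s hrs => it_ne b n hn w hrs, fun r => ?_, fun A _ v hv hd r =>
        it_vas b n w hK r hv hd hmn⟩
    have h1 := it_crossings b n w r
    have h2 : ((crossings (Piece.birth 0 b :: it b n w r) : ℕ) : ℝ) ≤
        (crossings (Piece.birth 0 b :: w) : ℝ) + r * ((2 ^ (n + 1) + 4 : ℕ) : ℝ) := by
      exact_mod_cast h1
    refine h2.trans ?_
    have h3 : (r : ℝ) * ((2 ^ (n + 1) + 4 : ℕ) : ℝ) ≤
        r * (12 * (m : ℝ) ^ Real.logb Real.goldenRatio 2) :=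
      mul_le_mul_of_nonneg_left hc (Nat.cast_nonneg r)
    have h4 : Real.logb Real.goldenRatio 2 = Real.log 2 / Real.log ((1 + √5) / 2) := rfl
    rw [h4] at h3
    linarith

end Pool.Agent.Results.MP_31fd3b_gt.CommutatorKnots
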