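import Pool.Agent.L5helper92.PR.Pair
import Pool.Agent.R811.VS.Detect2

/-!
# Vassiliev invariants of pairs of families of periodic and freely periodic knots

`Pool.Agent.TH561.PK.Defs` contains the definitions:

* `Elem M`: an elementary tangle on `M` vertical strands: a crossing of one of the two kinds between
  the places `i` and `i + 1`, or a hook (the two lower points at the places `i`, `i + 1` are joined by a
  cap, the two upper points by a cup);
* `annular w dir`: the closure in the annulus of the tangle `w 0, w 1, …, w (L-1)` (one above the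
  other); its marked points are the points `(t, j)` (level `t ∈ ℤ/L`, place `j`);
* `Oriented w dir`: `dir` is an orientation of the curves of this diagram (`dir (t, j) = true`: upwards);
* `IsKnot D`: all marked points are on one curve.

`freeWord n w a` (in `Pool.Agent.TH561.FP.Defs`) is the word `w` repeated `n` times, followed by `a`
full twists on all `M` strands, that is by the word `(σ_0 σ_1 ⋯ σ_{M-2})^M` repeated `|a|` times, with
crossings of the kind given by the sign of `a`.  So `annular (freeWord n w a) dir` is a knot with a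
symmetry of order `n` (a rotation for `a = 0`, a free one if `a` is prime to `n`, the quotient being a
knot in the lens space `L(n, a)`), and `annular (freeWord 1 w b) d` is the closure of `w` followed by
`b` full twists.

`red p f` is the Laurent polynomial `f` with coefficients modulo `p`.  `Dia`, `IsVassiliev`,
`Separated d X Y` (an integer valued Vassiliev invariant of oriented links of order at most `d` takes
different values on `X` and `Y`) are in `Pool.Agent.H832R3.VJ.Defs`, `Diagram`, `Diagram.IsClosed` and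
`Diagram.fPoly` (the normalised Kauffman bracket) in `Pool.Agent.H891R2.Jones.Diagram`.
-/

set_option autoImplicit false

namespace Pool.Agent.Results.MP_31fd3b_gt.PairRigidity

open LaurentPolynomial Pool.Agent.H891R2.Jones Pool.Agent.TH561 Pool.Agent.TH561.PK
  Pool.Agent.TH561.FP Pool.Agent.TH561.AD Pool.Agent.L5helper92.PR
open Pool.Agent.H832R3.VJ (Separated)

/-- Let `D`, `D'` be knot diagrams which are the closures in the annulus of `w ^ q` and of `w' ^ q`, both
followed by `a` full twists on all `M` respectively `M'` strands, where `q = p ^ k`, `k ≥ 1`, is a power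
of a prime `p ≥ 5` with `q > 2 |a| N (N + 1) + 4 N`, `N = max M M'`.  An associated pair is a pair of
knot diagrams `E`, `E'` which are the closures of `w ^ q₁` and `w' ^ q₁`, followed by `a₁` full twists
(`q₁ = p₁ ^ k₁` a power of a prime `p₁`, `k₁ ≥ 0`, `a₁ ∈ ℤ`).

* **Small orders.**  For every `r ≥ 0`: `D` and `D'` are separated by a Vassiliev invariant of order at
  most `max (q - 2) (q r + |a| N (N + 2) + 4 N)`, or `f_E ≡ f_{E'}` modulo `(p, (A - 1) ^ (q₁ (r + 1)))`
  for all associated pairs with `p₁ = p`.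
* **Reduction modulo `p`.**  If `f_D ≡ f_{D'}` modulo `p`, then `f_E ≡ f_{E'}` modulo `p` for all
  associated pairs with `p₁ = p`.
* **All primes.**  If `p > 2 ^ (M + 2 l) + 2 ^ (M' + 2 l')` and `f_D ≡ f_{D'}` modulo `p`, then
  `f_E ≡ f_{E'}` modulo `p₁` for all associated pairs with an odd prime `p₁`, and for every `b` the
  closures `K_b`, `K'_b` of `w`, `w'` followed by `b` full twists satisfy `f_{K_b} = f_{K'_b}`.
* **Separated quotients lift.**  If `p > 2 ^ (M + 2 l) + 2 ^ (M' + 2 l')` and `f_{K_b} ≠ f_{K'_b}` for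
  one `b`, then `D` and `D'` are separated by a Vassiliev invariant of order at most `c + 2 m + c' + 2 m'`
  (`c`, `c'` crossings and `m`, `m'` marked points of `D`, `D'`). -/
theorem result (M l : ℕ) (hl : 0 < l) (w : Fin l → Elem M) (M' l' : ℕ) (hl' : 0 < l')
    (w' : Fin l' → Elem M') (a : ℤ) (p k : ℕ) (hp : p.Prime) (hp5 : 5 ≤ p) (hk : 1 ≤ k)
    (hq : 2 * a.natAbs * max M M' * (max M M' + 1) + 4 * max M M' < p ^ k)
    (dir : Fin (p ^ k * l + a.natAbs * (M * (M - 1))) × Fin M → Bool)
    (ho : Oriented (freeWord (p ^ k) w a) dir) (hK : IsKnot (annular (freeWord (p ^ k) w a) dir))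
    (dir' : Fin (p ^ k * l' + a.natAbs * (M' * (M' - 1))) × Fin M' → Bool)
    (ho' : Oriented (freeWord (p ^ k) w' a) dir')
    (hK' : IsKnot (annular (freeWord (p ^ k) w' a) dir')) :
    (annular (freeWord (p ^ k) w a) dir).IsClosed ∧
    (∀ r : ℕ,
      Separated (max (p ^ k - 2)
          (p ^ k * r + (a.natAbs * (max M M' * (max M M' + 2)) + 4 * max M M')))
        ⟨_, inferInstance, annular (freeWord (p ^ k) w a) dir⟩
        ⟨_, inferInstance, annular (freeWord (p ^ k) w' a) dir'⟩ ∨
      ∀ (k₁ : ℕ) (a₁ : ℤ) (d₁ : Fin (p ^ k₁ * l + a₁.natAbs * (M * (M - 1))) × Fin M → Bool)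
        (d₁' : Fin (p ^ k₁ * l' + a₁.natAbs * (M' * (M' - 1))) × Fin M' → Bool),
        Oriented (freeWord (p ^ k₁) w a₁) d₁ → IsKnot (annular (freeWord (p ^ k₁) w a₁) d₁) →
        Oriented (freeWord (p ^ k₁) w' a₁) d₁' → IsKnot (annular (freeWord (p ^ k₁) w' a₁) d₁') →
        (T 1 - 1 : (ZMod p)[T;T⁻¹]) ^ (p ^ k₁ * (r + 1)) ∣
          red p (annular (freeWord (p ^ k₁) w a₁) d₁).fPoly -
            red p (annular (freeWord (p ^ k₁) w' a₁) d₁').fPoly) ∧
    (red p (annular (freeWord (p ^ k) w a) dir).fPoly =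
        red p (annular (freeWord (p ^ k) w' a) dir').fPoly →
      ∀ (k₁ : ℕ) (a₁ : ℤ) (d₁ : Fin (p ^ k₁ * l + a₁.natAbs * (M * (M - 1))) × Fin M → Bool)
        (d₁' : Fin (p ^ k₁ * l' + a₁.natAbs * (M' * (M' - 1))) × Fin M' → Bool),
        Oriented (freeWord (p ^ k₁) w a₁) d₁ → IsKnot (annular (freeWord (p ^ k₁) w a₁) d₁) →
        Oriented (freeWord (p ^ k₁) w' a₁) d₁' → IsKnot (annular (freeWord (p ^ k₁) w' a₁) d₁') →
        red p (annular (freeWord (p ^ k₁) w a₁) d₁).fPoly =
          red p (annular (freeWord (p ^ k₁) w' a₁) d₁').fPoly) ∧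
    (2 ^ (M + 2 * l) + 2 ^ (M' + 2 * l') < p →
      (red p (annular (freeWord (p ^ k) w a) dir).fPoly =
          red p (annular (freeWord (p ^ k) w' a) dir').fPoly →
        (∀ (p₁ k₁ : ℕ), p₁.Prime → p₁ ≠ 2 → ∀ (a₁ : ℤ)
          (d₁ : Fin (p₁ ^ k₁ * l + a₁.natAbs * (M * (M - 1))) × Fin M → Bool)
          (d₁' : Fin (p₁ ^ k₁ * l' + a₁.natAbs * (M' * (M' - 1))) × Fin M' → Bool),
          Oriented (freeWord (p₁ ^ k₁) w a₁) d₁ → IsKnot (annular (freeWord (p₁ ^ k₁) w a₁) d₁) →
          Oriented (freeWord (p₁ ^ k₁) w' a₁) d₁' → IsKnot (annular (freeWord (p₁ ^ k₁) w' a₁) d₁') →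
          red p₁ (annular (freeWord (p₁ ^ k₁) w a₁) d₁).fPoly =
            red p₁ (annular (freeWord (p₁ ^ k₁) w' a₁) d₁').fPoly) ∧
        ∀ (b : ℤ) (d : Fin (1 * l + b.natAbs * (M * (M - 1))) × Fin M → Bool)
          (d' : Fin (1 * l' + b.natAbs * (M' * (M' - 1))) × Fin M' → Bool),
          Oriented (freeWord 1 w b) d → Oriented (freeWord 1 w' b) d' →
          (annular (freeWord 1 w b) d).fPoly = (annular (freeWord 1 w' b) d').fPoly) ∧
      ∀ (b : ℤ) (d : Fin (1 * l + b.natAbs * (M * (M - 1))) × Fin M → Bool)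
        (d' : Fin (1 * l' + b.natAbs * (M' * (M' - 1))) × Fin M' → Bool),
        Oriented (freeWord 1 w b) d → Oriented (freeWord 1 w' b) d' →
        (annular (freeWord 1 w b) d).fPoly ≠ (annular (freeWord 1 w' b) d').fPoly →
        Separated ((annular (freeWord (p ^ k) w a) dir).crossings.length +
            2 * Fintype.card (Fin (p ^ k * l + a.natAbs * (M * (M - 1))) × Fin M) +
            ((annular (freeWord (p ^ k) w' a) dir').crossings.length +
            2 * Fintype.card (Fin (p ^ k * l' + a.natAbs * (M' * (M' - 1))) × Fin M')))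
          ⟨_, inferInstance, annular (freeWord (p ^ k) w a) dir⟩
          ⟨_, inferInstance, annular (freeWord (p ^ k) w' a) dir'⟩) := by
  have hM : 0 < M := by
    have := (w ⟨0, hl⟩).2.2
    omega
  have hM' : 0 < M' := by
    have := (w' ⟨0, hl'⟩).2.2
    omega
  have : Fact p.Prime := ⟨hp⟩
  have hp2 : p ≠ 2 := by omega
  have hpos : 0 < p ^ k := Nat.pow_pos hp.pos
  have hN1 : 1 ≤ max M M' := le_trans hM (le_max_left _ _)
  have hq1 : 2 * max M M' * (a.natAbs * max M M' + 1) < p ^ k := by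
    refine lt_of_le_of_lt ?_ hq
    nlinarith [Nat.zero_le (a.natAbs * max M M')]
  have hq2 : wid a (max M M') < p ^ k := by
    refine lt_of_le_of_lt ?_ hq
    unfold wid
    have h1 : a.natAbs * (max M M' * (max M M' + 2)) ≤ 2 * a.natAbs * max M M' * (max M M' + 1) := by
      have h2 : max M M' + 2 ≤ 2 * (max M M' + 1) := by omega
      calc a.natAbs * (max M M' * (max M M' + 2)) ≤ a.natAbs * (max M M' * (2 * (max M M' + 1))) :=
            Nat.mul_le_mul_left _ (Nat.mul_le_mul_left _ h2)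
        _ = _ := by ring
    omega
  have modp : red p (annular (freeWord (p ^ k) w a) dir).fPoly =
        red p (annular (freeWord (p ^ k) w' a) dir').fPoly →
      ∀ (k₁ : ℕ) (a₁ : ℤ) (d₁ : Fin (p ^ k₁ * l + a₁.natAbs * (M * (M - 1))) × Fin M → Bool)
        (d₁' : Fin (p ^ k₁ * l' + a₁.natAbs * (M' * (M' - 1))) × Fin M' → Bool),
        Oriented (freeWord (p ^ k₁) w a₁) d₁ → IsKnot (annular (freeWord (p ^ k₁) w a₁) d₁) →
        Oriented (freeWord (p ^ k₁) w' a₁) d₁' → IsKnot (annular (freeWord (p ^ k₁) w' a₁) d₁') →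
        red p (annular (freeWord (p ^ k₁) w a₁) d₁).fPoly =
          red p (annular (freeWord (p ^ k₁) w' a₁) d₁').fPoly := by
    intro hf k₁ a₁ d₁ d₁' ho₁ hK₁ ho₁' hK₁'
    obtain ⟨hs, hR⟩ := pair_RR p k hp5 hk hl hM w hl' hM' w' a dir ho hK dir' ho' hK' hpos _ rfl hq1 hf
    have hpos₁ : 0 < p ^ k₁ := Nat.pow_pos hp.pos
    rw [← sub_eq_zero]
    apply zero_of_pow p
    intro m
    have h := lift_order p hp2 k hl hM w hl' hM' w' a dir ho hK dir' ho' hK' hpos _ rfl hs m
      (fun n _ => by rw [hR n, sub_self]; exact dvd_zero _) k₁ a₁ d₁ ho₁ hK₁ d₁' ho₁' hK₁'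
    exact (pow_dvd_pow _ (Nat.le_mul_of_pos_left m hpos₁)).trans h
  refine ⟨annular_closed _ dir ho, fun r => ?_, modp, fun hbig => ⟨fun hf => ?_, ?_⟩⟩
  · by_cases hS : Separated (max (p ^ k - 2)
          (p ^ k * r + (a.natAbs * (max M M' * (max M M' + 2)) + 4 * max M M')))
        ⟨_, inferInstance, annular (freeWord (p ^ k) w a) dir⟩
        ⟨_, inferInstance, annular (freeWord (p ^ k) w' a) dir'⟩
    · left; exact hS
    · right
      intro k₁ a₁ d₁ d₁' ho₁ hK₁ ho₁' hK₁'
      have h1 := red_T_sub_one p _ _ (dvd_of_not_separated _ _ _ hS)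
      rw [map_sub] at h1
      obtain ⟨hs, hR⟩ := pair_coef p k hp5 hk hl hM w hl' hM' w' a dir ho hK dir' ho' hK' hpos _ rfl
        hq1 hq2 r _ (by
          have := le_max_left (p ^ k - 2)
            (p ^ k * r + (a.natAbs * (max M M' * (max M M' + 2)) + 4 * max M M'))
          omega) (by
          have := le_max_right (p ^ k - 2)
            (p ^ k * r + (a.natAbs * (max M M' * (max M M' + 2)) + 4 * max M M'))
          unfold wid
          omega) h1
      exact lift_order p hp2 k hl hM w hl' hM' w' a dir ho hK dir' ho' hK' hpos _ rfl hs (r + 1)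
        hR k₁ a₁ d₁ ho₁ hK₁ d₁' ho₁' hK₁'
  · obtain ⟨hs, hZ⟩ := pair_RZ p k hp5 hk hl hM w hl' hM' w' a dir ho hK dir' ho' hK' hpos _ rfl hq1
      hbig hf
    refine ⟨fun p₁ k₁ hp₁ hp₁2 a₁ d₁ d₁' ho₁ hK₁ ho₁' hK₁' => ?_, fun b d d' hd hd' => ?_⟩
    · have : Fact p₁.Prime := ⟨hp₁⟩
      exact lift_prime p hp2 k hl hM w hl' hM' w' a dir ho hK dir' ho' hK' hpos hs hZ p₁ hp₁2 k₁ a₁ d₁
        ho₁ hK₁ d₁' ho₁' hK₁'
    · exact quot_exact p hp2 k hl hM w hl' hM' w' a dir ho hK dir' ho' hK' hpos hs hZ b d d' hd hd'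
  · intro b d d' hd hd' hne
    have hL : 0 < p ^ k * l + a.natAbs * (M * (M - 1)) := by
      have := Nat.mul_pos hpos hl
      omega
    have hL' : 0 < p ^ k * l' + a.natAbs * (M' * (M' - 1)) := by
      have := Nat.mul_pos hpos hl'
      omega
    have : Nonempty (Fin (p ^ k * l + a.natAbs * (M * (M - 1))) × Fin M) := ⟨(⟨0, hL⟩, ⟨0, hM⟩)⟩
    have : Nonempty (Fin (p ^ k * l' + a.natAbs * (M' * (M' - 1))) × Fin M') := ⟨(⟨0, hL'⟩, ⟨0, hM'⟩)⟩
    apply Pool.Agent.R811.VS.detect2
    intro hf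
    apply hne
    obtain ⟨hs, hZ⟩ := pair_RZ p k hp5 hk hl hM w hl' hM' w' a dir ho hK dir' ho' hK' hpos _ rfl hq1
      hbig (by rw [hf])
    exact quot_exact p hp2 k hl hM w hl' hM' w' a dir ho hK dir' ho' hK' hpos hs hZ b d d' hd hd'

end Pool.Agent.Results.MP_31fd3b_gt.PairRigidity
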