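import Pool.Agent.H953R3.Q2.Fin2

/-!
# Vassiliev invariants of order two separate twisted diagrams of plane graphs

Diagrams: `Pool.Agent.H891R2.Jones.Diagram` (`Crossing`, `Diagram`: oriented link diagrams with
marked points; `Diagram.IsClosed`) and `Pool.Agent.H891R2.MT.Defs` (`Ribbon k`: a ribbon graph with
`k` edges, given by the rotation system on its `2 k` darts; `Ribbon.verts`, `Ribbon.comps`;
`Ribbon.Planar`: a connected plane graph; `Ribbon.link n`: the unoriented link diagram which is the
boundary of the surface made of one disc for every vertex and, for every edge `e`, a band with `n e`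
half twists, that is, a row of `|n e|` crossings; `Orients D U`: `D` is the unoriented diagram `U`
with directions).

`Pool.Agent.H832R3.VJ.Defs`: `Dia` (a diagram with its finite set of marked points), `Separated d X Y`
(some Vassiliev invariant of order at most `d` has different values on `X` and `Y`).

`Pool.Agent.H953R3.Q2.Fin2`: `Balanced M F A`: for every edge `e ∈ F` the set `A e` contains either
no even numbers or at least `M`, and either no odd numbers or at least `M`.
-/

set_option autoImplicit false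

namespace Pool.Agent.Results.MP_31fd3b_gt.PlaneGraphTwists

open Finset Pool.Agent.H891R2.Jones Pool.Agent.H891R2.MT Pool.Agent.H953R3.Q2
  Pool.Agent.H832R3.VJ

/-- The link diagram with `n e` half twists on the edges `e` of `Γ`, with some directions, is not
separated from the diagram `X` by Vassiliev invariants of order at most `2`. -/
def Near {k : ℕ} (Γ : Ribbon k) (n : Fin k → ℤ) (X : Dia) : Prop :=
  ∃ D : Diagram (Ribbon.Pt n), Orients D (Γ.link n) ∧ D.IsClosed ∧
    ¬ Separated 2 ⟨_, inferInstance, D⟩ X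

/-- The link diagrams with `n e` half twists on the edges `e` of `Γ` and with `n' e` half twists on
the edges `e` of `Γ'`, each of them with some directions, are not separated by Vassiliev invariants
of order at most `2`. -/
def Close {k k' : ℕ} (Γ : Ribbon k) (n : Fin k → ℤ) (Γ' : Ribbon k') (n' : Fin k' → ℤ) : Prop :=
  ∃ (D : Diagram (Ribbon.Pt n)) (D' : Diagram (Ribbon.Pt n')), Orients D (Γ.link n) ∧
    D.IsClosed ∧ Orients D' (Γ'.link n') ∧ D'.IsClosed ∧
    ¬ Separated 2 ⟨_, inferInstance, D⟩ ⟨_, inferInstance, D'⟩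

open Classical in
/-- Two coordinates of a product of finite sets. -/
theorem two_coords {T : ℕ} {X : Fin T → Type} (S : ∀ i, Finset (X i)) {i j : Fin T} (hij : i ≠ j)
    (P : X i → X j → Prop) (M : ℕ)
    (h : M * #{p ∈ S i ×ˢ S j | P p.1 p.2} ≤ 2 * (#(S i) * #(S j))) :
    M * #{n ∈ Fintype.piFinset S | P (n i) (n j)} ≤ 2 * ∏ l, #(S l) := by
  set R : ℕ := ∏ l ∈ (univ.erase i).erase j, #(S l) with hR
  have hj : j ∈ univ.erase i := mem_erase.2 ⟨hij.symm, mem_univ _⟩
  have hprod : ∏ l, #(S l) = #(S i) * #(S j) * R := by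
    rw [hR, mul_assoc, mul_prod_erase _ (fun l => #(S l)) hj,
      mul_prod_erase _ (fun l => #(S l)) (mem_univ i)]
  have hfib : ∀ p ∈ {p ∈ S i ×ˢ S j | P p.1 p.2},
      #{n ∈ {n ∈ Fintype.piFinset S | P (n i) (n j)} | (n i, n j) = p} ≤ R := by
    rintro ⟨a, b⟩ hp
    have hsub : {n ∈ {n ∈ Fintype.piFinset S | P (n i) (n j)} | (n i, n j) = (a, b)} ⊆
        Fintype.piFinset (Function.update (Function.update S i {a}) j {b}) := by
      intro n hn
      rw [mem_filter, mem_filter, Fintype.mem_piFinset] at hn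
      obtain ⟨⟨h1, -⟩, h2⟩ := hn
      rw [Prod.mk.injEq] at h2
      rw [Fintype.mem_piFinset]
      intro l
      by_cases hl : l = j
      · subst hl
        rw [Function.update_self, mem_singleton]
        exact h2.2
      · rw [Function.update_of_ne hl]
        by_cases hl' : l = i
        · subst hl'
          rw [Function.update_self, mem_singleton]
          exact h2.1
        · rw [Function.update_of_ne hl']
          exact h1 l
    refine (card_le_card hsub).trans (le_of_eq ?_)
    rw [Fintype.card_piFinset, ← mul_prod_erase _ _ (mem_univ i), ← mul_prod_erase _ _ hj]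
    rw [Function.update_of_ne hij, Function.update_self, Function.update_self, card_singleton,
      card_singleton, one_mul, one_mul, hR]
    refine prod_congr rfl fun l hl => ?_
    rw [mem_erase, mem_erase] at hl
    rw [Function.update_of_ne hl.1, Function.update_of_ne hl.2.1]
  have hcount : #{n ∈ Fintype.piFinset S | P (n i) (n j)} ≤
      #{p ∈ S i ×ˢ S j | P p.1 p.2} * R := by
    rw [card_eq_sum_card_fiberwise (f := fun n => (n i, n j))
      (t := {p ∈ S i ×ˢ S j | P p.1 p.2})]
    · refine (sum_le_sum hfib).trans (le_of_eq ?_)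
      rw [sum_const, smul_eq_mul]
    · intro n hn
      rw [mem_coe, mem_filter, Fintype.mem_piFinset] at hn
      rw [mem_coe, mem_filter, mem_product]
      exact ⟨⟨hn.1 i, hn.1 j⟩, hn.2⟩
  calc M * #{n ∈ Fintype.piFinset S | P (n i) (n j)}
      ≤ M * (#{p ∈ S i ×ˢ S j | P p.1 p.2} * R) := Nat.mul_le_mul_left _ hcount
    _ = (M * #{p ∈ S i ×ˢ S j | P p.1 p.2}) * R := by ring
    _ ≤ (2 * (#(S i) * #(S j))) * R := Nat.mul_le_mul_right _ h
    _ = 2 * ∏ l, #(S l) := by rw [hprod]; ring

open Classical in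
/-- Tuples of members of families. -/
theorem tuples (T : ℕ) (k : Fin T → ℕ) (Γ : ∀ i, Ribbon (k i)) (hΓ : ∀ i, (Γ i).Planar)
    (hk : ∀ i, (Γ i).verts ≤ k i) (M : ℕ) (F : ∀ i, Finset (Fin (k i)))
    (hF : ∀ i, (F i)ᶜ.card + (Γ i).comps (F i)ᶜ = (Γ i).verts)
    (A : ∀ i, Fin (k i) → Finset ℤ) (hA : ∀ i, Balanced M (F i) (A i)) :
    M * #{n ∈ Fintype.piFinset fun i => Fintype.piFinset (A i) |
      ∃ i j, i < j ∧ Close (Γ i) (n i) (Γ j) (n j)} ≤ T * (T - 1) * ∏ i, ∏ e, #(A i e) := by
  set Q : Finset (Fin T × Fin T) := {p | p.1 < p.2} with hQ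
  have hsub : {n ∈ Fintype.piFinset fun i => Fintype.piFinset (A i) |
      ∃ i j, i < j ∧ Close (Γ i) (n i) (Γ j) (n j)} ⊆
      Q.biUnion fun p => {n ∈ Fintype.piFinset fun i => Fintype.piFinset (A i) |
        Close (Γ p.1) (n p.1) (Γ p.2) (n p.2)} := by
    intro n hn
    rw [mem_filter] at hn
    obtain ⟨h1, i, j, hij, h2⟩ := hn
    rw [mem_biUnion]
    refine ⟨(i, j), ?_, ?_⟩
    · rw [hQ, mem_filter]
      exact ⟨mem_univ _, hij⟩
    · rw [mem_filter]
      exact ⟨h1, h2⟩
  have hQc : 2 * #Q = T * (T - 1) := by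
    have h1 : (univ : Finset (Fin T)).offDiag = Q ∪ Q.image Prod.swap := by
      ext ⟨i, j⟩
      simp only [mem_offDiag, mem_univ, true_and, hQ, mem_union, mem_filter, mem_image,
        Prod.exists, Prod.swap_prod_mk, Prod.mk.injEq]
      constructor
      · intro h
        rcases lt_or_gt_of_ne h with h | h
        · exact Or.inl h
        · exact Or.inr ⟨j, i, h, rfl, rfl⟩
      · rintro (h | ⟨a, b, h, rfl, rfl⟩)
        · exact h.ne
        · exact h.ne'
    have h2 : Disjoint Q (Q.image Prod.swap) := by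
      rw [disjoint_left]
      rintro ⟨i, j⟩ h3 h4
      simp only [hQ, mem_filter, mem_univ, true_and, mem_image, Prod.exists, Prod.swap_prod_mk,
        Prod.mk.injEq] at h3 h4
      obtain ⟨a, b, h5, rfl, rfl⟩ := h4
      exact absurd h5 (not_lt.2 h3.le)
    have h3 := congrArg Finset.card h1
    rw [card_union_of_disjoint h2, card_image_of_injective _ Prod.swap_injective, offDiag_card,
      card_univ, Fintype.card_fin] at h3
    have h4 : T * (T - 1) = T * T - T := by
      rw [Nat.mul_sub, mul_one]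
    omega
  have hbox : ∀ i, #(Fintype.piFinset (A i)) = ∏ e, #(A i e) := fun i => Fintype.card_piFinset _
  calc M * #{n ∈ Fintype.piFinset fun i => Fintype.piFinset (A i) |
        ∃ i j, i < j ∧ Close (Γ i) (n i) (Γ j) (n j)}
      ≤ M * ∑ p ∈ Q, #{n ∈ Fintype.piFinset fun i => Fintype.piFinset (A i) |
        Close (Γ p.1) (n p.1) (Γ p.2) (n p.2)} :=
        Nat.mul_le_mul_left _ ((card_le_card hsub).trans card_biUnion_le)
    _ = ∑ p ∈ Q, M * #{n ∈ Fintype.piFinset fun i => Fintype.piFinset (A i) |
        Close (Γ p.1) (n p.1) (Γ p.2) (n p.2)} := by rw [mul_sum]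
    _ ≤ ∑ p ∈ Q, 2 * ∏ i, ∏ e, #(A i e) := by
        refine sum_le_sum fun p hp => ?_
        rw [hQ, mem_filter] at hp
        have h1 := count_pairs (Γ p.1) (hΓ p.1) (hk p.1) (F p.1) (hF p.1) (Γ p.2)
          (pos_of_planar (Γ p.2) (hΓ p.2)) M (A p.1) (hA p.1) (A p.2)
        have h2 := two_coords (fun i => Fintype.piFinset (A i)) hp.2.ne
          (fun a b => Close (Γ p.1) a (Γ p.2) b) M (by
            rw [hbox, hbox]
            exact h1)
        simp only [hbox] at h2
        exact h2
    _ = T * (T - 1) * ∏ i, ∏ e, #(A i e) := by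
        rw [sum_const, smul_eq_mul, ← hQc]
        ring

theorem close_inv {k k' : ℕ} {Γ : Ribbon k} (hΓ : 0 < k) {Γ' : Ribbon k'} (hk' : 0 < k')
    {n : Fin k → ℤ} {n' : Fin k' → ℤ} (h : Close Γ n Γ' n') :
    kap (Γ.link n).std.bracket = kap (Γ'.link n').std.bracket ∧
      moment 0 (Γ.link n).std.bracket ^ 2 = moment 0 (Γ'.link n').std.bracket ^ 2 := by
  obtain ⟨D, D', hD, -, hD', -, h⟩ := h
  have h0 : Same D.fPoly D'.fPoly := same_of' h
  have h4 := h0.inv
  have h5 := fPoly_inv Γ hΓ n D hD
  have h6 := fPoly_inv Γ' hk' n' D' hD'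
  exact ⟨by rw [← h5.1, h4.1, h6.1], by rw [← h5.2, h4.2, h6.2]⟩

open Classical in
/-- Let `Γ` be a connected plane graph with `k` edges which is not a tree (`verts ≤ k`), and let
`D(n)`, `n ∈ ℤ^k`, be the link diagram with a row of `|n e|` crossings on the edge `e`. Let `F` be a
set of edges such that the other edges form a forest, and let `A e ⊂ ℤ` be finite sets such that,
for `e ∈ F`, the even (odd) elements of `A e` are none or at least `M`.

1. For every link diagram `X` the proportion of the `n ∈ ∏ A e` such that `D(n)`, for some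
   directions, is not separated from `X` by Vassiliev invariants of order at most `2`, is at most
   `2 / M`. Every set of vectors `n ∈ ∏ A e` whose diagrams, with suitable directions, are pairwise
   not separated by Vassiliev invariants of order at most `2` has at most `(2 / M) ∏ |A e|`
   elements.
2. Let `T` graphs `Γ i` with such sets of edges and such sets of integers `A i e` be given. The
   proportion of the tuples of vectors `n i ∈ ∏ A i e` such that some two of the diagrams
   `D_i(n i)`, for some directions, are not separated by Vassiliev invariants of order at most `2`,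
   is at most `T (T - 1) / M`.
3. If the numbers of half twists are chosen independently and uniformly in `{-N, …, N}` for all the
   edges of `T` such graphs, then with probability at least `1 - T (T - 1) / N` the `T` links, with
   any directions, are pairwise separated by Vassiliev invariants of order at most `2`. -/
theorem result :
    (∀ (k : ℕ) (Γ : Ribbon k), Γ.Planar → Γ.verts ≤ k → ∀ F : Finset (Fin k),
      Fᶜ.card + Γ.comps Fᶜ = Γ.verts → ∀ (M : ℕ) (A : Fin k → Finset ℤ), Balanced M F A →
      (∀ X : Dia, M * #{n ∈ Fintype.piFinset A | Near Γ n X} ≤ 2 * ∏ e, #(A e)) ∧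
      ∀ B ⊆ Fintype.piFinset A, (∀ n ∈ B, ∀ n' ∈ B, n ≠ n' → Close Γ n Γ n') →
        M * #B ≤ 2 * ∏ e, #(A e)) ∧
    (∀ (T : ℕ) (k : Fin T → ℕ) (Γ : ∀ i, Ribbon (k i)), (∀ i, (Γ i).Planar) →
      (∀ i, (Γ i).verts ≤ k i) → ∀ (M : ℕ) (F : ∀ i, Finset (Fin (k i))),
      (∀ i, (F i)ᶜ.card + (Γ i).comps (F i)ᶜ = (Γ i).verts) →
      ∀ A : ∀ i, Fin (k i) → Finset ℤ, (∀ i, Balanced M (F i) (A i)) →
      M * #{n ∈ Fintype.piFinset fun i => Fintype.piFinset (A i) |
        ∃ i j, i < j ∧ Close (Γ i) (n i) (Γ j) (n j)} ≤ T * (T - 1) * ∏ i, ∏ e, #(A i e)) ∧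
    ∀ (T : ℕ) (k : Fin T → ℕ) (Γ : ∀ i, Ribbon (k i)), (∀ i, (Γ i).Planar) →
      (∀ i, (Γ i).verts ≤ k i) → ∀ N : ℕ,
      N * #{n ∈ Fintype.piFinset fun i => Fintype.piFinset fun _ : Fin (k i) =>
          Icc (-(N : ℤ)) N | ∃ i j, i < j ∧ Close (Γ i) (n i) (Γ j) (n j)} ≤
        T * (T - 1) * ∏ i, (2 * N + 1) ^ k i := by
  refine ⟨fun k Γ hΓ hk F hF M A hA => ⟨fun X => ?_, fun B hB hclose => ?_⟩,
    fun T k Γ hΓ hk M F hF A hA => tuples T k Γ hΓ hk M F hF A hA,
    fun T k Γ hΓ hk N => ?_⟩
  · exact count_sep Γ hΓ hk F hF X M A hA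
  · rcases B.eq_empty_or_nonempty with rfl | ⟨n₀, hn₀⟩
    · simp
    · have hpos := pos_of_planar Γ hΓ
      refine le_trans (Nat.mul_le_mul_left _ (card_le_card ?_))
        (count_kap Γ hΓ hk F hF (kap (Γ.link n₀).std.bracket)
          (moment 0 (Γ.link n₀).std.bracket ^ 2) A M hA.zmod)
      intro n hn
      rw [mem_filter]
      refine ⟨hB hn, ?_⟩
      by_cases h : n = n₀
      · subst h
        exact ⟨rfl, rfl⟩
      · exact close_inv hpos hpos (hclose n hn n₀ hn₀ h)
  · have h1 := tuples T k Γ hΓ hk N (fun _ => univ) (fun i => empty_forest (Γ i))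
      (fun i _ => Icc (-(N : ℤ)) N) (fun i => balanced_box N univ)
    have hc : ∀ i, ∏ _e : Fin (k i), #(Icc (-(N : ℤ)) N) = (2 * N + 1) ^ k i := by
      intro i
      rw [prod_const, card_univ, Fintype.card_fin, Int.card_Icc]
      congr 1
      omega
    simp only [hc] at h1
    exact h1

end Pool.Agent.Results.MP_31fd3b_gt.PlaneGraphTwists
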