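import Pool.Agent.L5helper69.SV.Multi
import Pool.Agent.L5helper75.SV.ExpZ
import Pool.Agent.L5helper54.SVFund
import Pool.Agent.L5helper45.SVMulti

/-!
# Vassiliev invariants of knots whose braids are iterated substitutions

Starting library `Pool.Agent.H835R2.Knot.Defs`: `Word` (oriented sliced diagrams: lists of maxima,
minima and crossings), `IsKnot`, `Isotopic`, `IsInvariant v` (`v` is an invariant of oriented knots),
`DegreeLE m v` (`v` is a Vassiliev invariant of order at most `m`).

Starting library `Pool.Agent.Y466.FT`: `Braid` (braid words, lists of letters `σ_i^{±1}`), `inv` (the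
inverse word), `draw` (the diagram of a braid word), `ext v` (the values of `v` on knot diagrams, `0`
on all other words), `wd u₀ u j` (the number of strands at the place `j`), `Separated m D E` (some
rational valued Vassiliev invariant of order at most `m` has different values on `D` and `E`).

New definitions (`Pool.Agent.L5helper69.SV`): `Grp k r` (the product of `k` free groups of rank `r`);
`Shape k r N` (pieces `u₀, u₁, …, u_k` of a diagram with `k` places with at most `N` strands, and for
every place `j` braid words `w j i`, `i < r`, on its strands, pure or not); `S.D γ` for `γ ∈ Grp k r` (the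
diagram `u₀ w₁(γ₁) u₁ ⋯ w_k(γ_k) u_k`, where `w_j(γ_j)` is the reduced word `γ_j` with the letters
replaced by the `w j i` and their inverses); `S.A Ψ γ n = S.D (Ψ(n) γ)` for an action `Ψ` of `ℤ^s` on
`Grp k r`; `Knots`, `Equal`; the statements `Recurrence`, `Periods`, `Alternative`, `Dichotomy`,
`OneOrder`, `Progressions`.

Proof.  The values of an invariant of order at most `m` on the `S.D γ` are a function on the group
`Γ = Grp k r` all of whose `(m+1)`-fold differences with respect to the elements of a fully invariant
subgroup `H` of finite index vanish.  Such functions are the linear functions on a quotient of the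
group ring `ℤ[Γ]` which is a finitely generated abelian group, on which the endomorphism acts.  The zero
sets are described by the theorem of Skolem, Mahler and Lech in a form with one period.  For
automorphisms all eigenvalues, for all `m`, are products of the eigenvalues on `H^ab` and of roots of
unity, and Hilbert's basis theorem applies to a ring of exponential polynomials.
-/

set_option autoImplicit false

namespace Pool.Agent.Results.MP_31fd3b_gt.SubstitutionSequences

open Pool.Agent.H835R2.Knot Pool.Agent.Y466.FT Pool.Agent.L5helper69.SV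

/-- (1) **Recurrence**: for an endomorphism `Φ` of `Grp k r` there is a monic integral polynomial `χ`,
depending on `k`, `r`, `N`, `Φ` and `m` only, such that for all `S` and `γ` the values of every Vassiliev
invariant of order at most `m` (in any abelian group) on the diagrams `D(Φ^n γ)` satisfy the linear
recurrence with characteristic polynomial `χ`.

(2) **Periods**: the values in groups of exponent `q` are periodic for `n ≥ n₁`, with a period `P`; `P` and
`n₁` depend on `k`, `r`, `N`, `Φ`, `m` and `q` only.

(3) **Dichotomy**: for two endomorphisms `Φ`, `Φ'` there are `L` and `n₀` such that for all `S`, `S'`, `γ`, `γ'` on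
every residue class of `n` modulo `L`: for no `n ≥ n₀` both `D(Φ^n γ)` and `D'(Φ'^n γ')` are knot
diagrams; or for all `n ≥ n₀` both are knot diagrams, and either the knots are not separated by rational
Vassiliev invariants of order at most `m` for any `n ≥ n₀`, or they are for all but finitely many `n`.

(4) **One order for all**: let `ℤ^s` and `ℤ^{s'}` act on `Grp k r` and `Grp k' r'` by automorphisms `Ψ(n)`,
`Ψ'(n')`.  For all `S`, `S'`, `γ`, `γ'` there is a number `d` such that for all `n`, `n'`, if the knots
`D(Ψ(n) γ)` and `D'(Ψ'(n') γ')` are separated by any rational Vassiliev invariant, then by one of order at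
most `d`.  Along any two arithmetic progressions `a + n b`, `a' + n b'` the set of all `n` such that the two
diagrams are diagrams of knots which no rational Vassiliev invariant separates is periodic for large
`n`. -/
theorem result :
    (∀ (k r N : ℕ) (Φ : Grp k r →* Grp k r) (m : ℕ), Recurrence N Φ m) ∧
    (∀ (k r N : ℕ) (Φ : Grp k r →* Grp k r) (m q : ℕ), 1 ≤ q → Periods N Φ m q) ∧
    (∀ (k r N k' r' N' : ℕ) (Φ : Grp k r →* Grp k r) (Φ' : Grp k' r' →* Grp k' r') (m : ℕ),
      Dichotomy N N' Φ Φ' m) ∧
    (∀ (k r N k' r' N' s s' : ℕ) (S : Shape k r N) (S' : Shape k' r' N')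
      (Ψ : Multiplicative (Fin s → ℤ) →* MulAut (Grp k r))
      (Ψ' : Multiplicative (Fin s' → ℤ) →* MulAut (Grp k' r')) (γ : Grp k r) (γ' : Grp k' r'),
      OneOrder (S.A Ψ γ) (S'.A Ψ' γ') ∧ Progressions (S.A Ψ γ) (S'.A Ψ' γ')) := by
  refine ⟨fun k r N Φ m => ?_, fun k r N Φ m q hq => ?_, fun k r N k' r' N' Φ Φ' m => ?_,
    fun k r N k' r' N' s s' S S' Ψ Ψ' γ γ' => ?_⟩
  · obtain ⟨χ, h1, h2⟩ := Pool.Agent.L5helper69.SV2.exists_chi N Φ m
    refine ⟨χ, h1, fun S A _ v hv hm γ n => ?_⟩
    exact (Pool.Agent.L5helper69.SV2.kil_iff _ _).1 (h2 S.u₀ S.w S.u S.on A v hv hm γ) n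
  · obtain ⟨χ, h1, h2⟩ := Pool.Agent.L5helper69.SV2.exists_chi N Φ m
    obtain ⟨P, n₁, hP, a, b, hab⟩ := Pool.Agent.L5helper69.SV2.exists_per h1 hq
    refine ⟨P, n₁, hP, fun S A _ v hv hm hA γ n hn => ?_⟩
    exact Pool.Agent.L5helper69.SV2.per_of_kil hab hA (h2 S.u₀ S.w S.u S.on A v hv hm γ) n hn
  · obtain ⟨L, n₀, hL, h⟩ := Pool.Agent.L5helper69.SV2.part_C N Φ N' Φ' m
    exact ⟨L, n₀, hL, fun S S' γ γ' c => h S.u₀ S.w S.u S'.u₀ S'.w S'.u S.on S'.on γ γ' c⟩
  · have h := Pool.Agent.L5helper69.SV3.one_orderM Pool.Agent.L5helper75.SV.ExpZ.expZ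
      Pool.Agent.L5helper69.SV3.fund Pool.Agent.L5helper69.SV3.multi S Ψ γ S' Ψ' γ'
    exact ⟨h, Pool.Agent.L5helper69.SV3.progressions S Ψ γ S' Ψ' γ' h⟩

end Pool.Agent.Results.MP_31fd3b_gt.SubstitutionSequences
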